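import Pool.Agent.H37.CTL.Stmts
import Pool.Agent.H2.CND.CNG

/-!
# Row T57 of the board `ctl`: the second conductor of `SL_3(q)`
-/

set_option autoImplicit false

namespace Pool.CND

open Polynomial

namespace T57aux

/-- the polynomials of case (II): the conditions of `T33` -/
theorem pol1 {k : Type} [Field k] (q n : ℕ) (hn : q ^ 2 - q < n) (hn0 : n ≠ 0)
    (b : Polynomial k) (α β : k) (hb : b.coeff n ≠ 0) (hα : α ≠ 0) :
    (Polynomial.X ^ (q ^ 2 - q) - C 2 * Polynomial.X ^ (q ^ 2 - q - 1) : Polynomial k) ≠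
      C α * b + C β := by
  intro h
  have h1 := congrArg (fun r : Polynomial k => r.coeff n) h
  simp only [coeff_sub, coeff_add, coeff_C_mul, coeff_X_pow, coeff_C, if_neg hn0, add_zero] at h1
  rw [if_neg (by omega), if_neg (by omega), mul_zero, sub_zero] at h1
  exact mul_ne_zero hα hb h1.symm

theorem sq_big (q : ℕ) (hq : 3 ≤ q) : q ^ 2 - q < q ^ 2 - 2 := by
  have h1 : 3 * q ≤ q * q := Nat.mul_le_mul_right q hq
  rw [sq]
  omega

theorem sq_big2 (q : ℕ) (hq : 3 ≤ q) : q ^ 2 - q < (q ^ 2 - 2) * q := by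
  have h1 := sq_big q hq
  have h2 : (q ^ 2 - 2) * 1 ≤ (q ^ 2 - 2) * q := Nat.mul_le_mul_left _ (by omega)
  omega

theorem cst_pow {p : ℕ} {k F L : Type} [Field k] [Field F] [Field L] [Algebra F k] [Algebra k L]
    {f q : ℕ} (hp : p.Prime) (hq : q = p ^ f) (hF : Nat.card F = q) (a : F) :
    cst k F L a ^ q = cst k F L a := by
  have hq0 : q ≠ 0 := by
    rw [hq]
    exact pow_ne_zero _ hp.ne_zero
  have hfin : Finite F := Nat.finite_of_card_ne_zero (by rw [hF]; exact hq0)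
  letI : Fintype F := Fintype.ofFinite F
  have h1 : a ^ q = a := by
    rw [← hF, Nat.card_eq_fintype_card]
    exact FiniteField.pow_card a
  show algebraMap k L (algebraMap F k a) ^ q = algebraMap k L (algebraMap F k a)
  rw [← map_pow, ← map_pow, h1]

/-- `S₂` is fixed by the elements whose matrix is unitriangular -/
theorem fix_S2 {p : ℕ} {k F L : Type} [Field k] [Field F] [Field L] [Algebra F k] [Algebra k L]
    {f q : ℕ} (hp : p.Prime) (hcp : CharP k p) (hq : q = p ^ f) (hF : Nat.card F = q)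
    (σ : L ≃ₐ[k] L) (X : Fin 3 → L) (m : Matrix (Fin 3) (Fin 3) F)
    (hact : ∀ i, σ (X i) = ∑ j, cst k F L (m j i) * X j) (h00 : m 0 0 = 1) (h10 : m 1 0 = 0)
    (h20 : m 2 0 = 0) (h11 : m 1 1 = 1) (h21 : m 2 1 = 0) :
    σ (X 1 ^ q - X 0 ^ (q - 1) * X 1) = X 1 ^ q - X 0 ^ (q - 1) * X 1 := by
  have hq0 : q ≠ 0 := by
    rw [hq]
    exact pow_ne_zero _ hp.ne_zero
  haveI : Fact p.Prime := ⟨hp⟩
  haveI : CharP L p := charP_of_injective_algebraMap (algebraMap k L).injective p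
  have c0 : cst k F L (0 : F) = 0 := by simp [cst]
  have c1 : cst k F L (1 : F) = 1 := by simp [cst]
  have e0 : σ (X 0) = X 0 := by
    rw [hact, Fin.sum_univ_three, h00, h10, h20, c0, c1]
    ring
  have e1 : σ (X 1) = X 1 + cst k F L (m 0 1) * X 0 := by
    rw [hact, Fin.sum_univ_three, h11, h21, c0, c1]
    ring
  have e2 : (X 1 + cst k F L (m 0 1) * X 0) ^ q = X 1 ^ q + cst k F L (m 0 1) * X 0 ^ q := by
    have h := add_pow_char_pow (p := p) (n := f) (X 1) (cst k F L (m 0 1) * X 0)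
    rw [← hq, mul_pow, cst_pow hp hq hF] at h
    exact h
  have e3 : X 0 ^ q = X 0 ^ (q - 1) * X 0 := by
    rw [← pow_succ, Nat.sub_add_cancel (Nat.one_le_iff_ne_zero.2 hq0)]
  rw [map_sub, map_mul, map_pow, map_pow, e0, e1, e2, e3]
  ring

/-- the `(1, 2)` entry is additive on unitriangular matrices -/
theorem mul12 {F : Type} [Field F] (m n : Matrix (Fin 3) (Fin 3) F)
    (hm : (∀ i j, j < i → m i j = 0) ∧ ∀ i, m i i = 1)
    (hn : (∀ i j, j < i → n i j = 0) ∧ ∀ i, n i i = 1) :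
    (m * n) 1 2 = m 1 2 + n 1 2 := by
  rw [Matrix.mul_apply, Fin.sum_univ_three, hm.1 1 0 (by decide), hm.2 1, hn.2 2]
  ring

end T57aux

open T57aux in
theorem t57_thm (hSUB : S_SUB) (hT51 : S_T51) (hT52 : S_T52) (hT53 : S_T53) (hT54 : S_T54)
    (hT55 : S_T55) (hT56 : S_T56) (hLC1 : S_LC1) (hT33 : S_T33) (hT34 : S_T34) : S_T57 := by
  intro p k F _ _ _ _ f q hp hp2 hcp hf hq hF
  obtain ⟨L, _, _, t, X, G₀, ρ, P, hS3, hC3, ht, hX0, hX1, hX2⟩ :=
    hT51 p k F f q hp hp2 hcp hf hq hF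
  have hp3 : 3 ≤ p := by
    have := hp.two_le
    omega
  have hq3 : 3 ≤ q := by
    rw [hq]
    calc 3 ≤ p := hp3
      _ = p ^ 1 := (pow_one p).symm
      _ ≤ p ^ f := Nat.pow_le_pow_right (by omega) hf
  have hfin : Finite F := Nat.finite_of_card_ne_zero (by rw [hF]; omega)
  have hfinS : Finite (Matrix.SpecialLinearGroup (Fin 3) F) :=
    Subtype.finite
  letI : Fintype G₀ := Fintype.ofFinite G₀
  have hXne : ∀ i, X i ≠ 0 := by
    intro i hi
    have h1 := hS3.ind (Pi.single i 1) (by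
      rw [Finset.sum_eq_single i]
      · rw [hi, mul_zero]
      · intro j _ hj
        rw [Pi.single_eq_of_ne hj]
        simp [cst]
      · intro h
        exact absurd (Finset.mem_univ i) h)
    have h2 := congrFun h1 i
    rw [Pi.single_eq_same] at h2
    exact one_ne_zero h2
  have hUni := hT52 p k F L f q t X G₀ ρ P hp hp2 hcp hf hq hF hC3 hXne ht hX0 hX1 hX2
  obtain ⟨S₂, hS₂⟩ : ∃ S₂, S₂ = X 1 ^ q - X 0 ^ (q - 1) * X 1 := ⟨_, rfl⟩
  obtain ⟨S₃, hS₃⟩ : ∃ S₃, S₃ = X 2 ^ q - X 0 ^ (q - 1) * X 2 := ⟨_, rfl⟩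
  obtain ⟨-, hS₂0, -⟩ := hT53 p k F L f q _ _ t X S₂ S₃ _ hp hcp hf hq hF hS3 hS₂ hS₃ rfl
  obtain ⟨η, α, h, z, hη, hα, hh, hz, hh0, hoh, hGe1, hGe2⟩ :=
    hT54 p k F L f q t X S₂ S₃ P hp hp2 hcp hf hq hF hS3 ht hX0 hX1 hX2 hS₂ hS₃
  obtain ⟨W, I, hW, hI, hWI, -⟩ := hSUB k L G₀ P ρ
  have hWm : ∀ g : G₀, g ∈ W ↔ g ∈ ram P ρ 1 := by
    intro g
    rw [← hW]
    rfl
  have hWu : ∀ g ∈ W, (∀ i j, j < i → g.1.1 i j = 0) ∧ ∀ i, g.1.1 i i = 1 :=
    fun g hg => hUni g ((hWm g).1 hg)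
  have hmul : ∀ g ∈ W, ∀ h ∈ W, (g * h).1.1 1 2 = g.1.1 1 2 + h.1.1 1 2 :=
    fun g hg h hh => mul12 g.1.1 h.1.1 (hWu g hg) (hWu h hh)
  have hone : (1 : G₀).1.1 1 2 = 0 := rfl
  have hinv : ∀ g ∈ W, (g⁻¹).1.1 1 2 = -g.1.1 1 2 := by
    intro g hg
    have h1 := hmul g hg g⁻¹ (W.inv_mem hg)
    rw [mul_inv_cancel, hone] at h1
    exact (neg_eq_of_add_eq_zero_right h1.symm).symm
  obtain ⟨M, hM⟩ : ∃ M : Subgroup G₀, ∀ g, g ∈ M ↔ g ∈ W ∧ g.1.1 1 2 = 0 := by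
    refine ⟨{ carrier := {g | g ∈ W ∧ g.1.1 1 2 = 0}
              mul_mem' := ?_
              one_mem' := ⟨W.one_mem, hone⟩
              inv_mem' := ?_ }, fun g => Iff.rfl⟩
    · rintro a b ⟨ha, ha'⟩ ⟨hb, hb'⟩
      refine ⟨W.mul_mem ha hb, ?_⟩
      rw [hmul a ha b hb, ha', hb', add_zero]
    · rintro a ⟨ha, ha'⟩
      refine ⟨W.inv_mem ha, ?_⟩
      rw [hinv a ha, ha', neg_zero]
  obtain ⟨τ, hτ1, hpτ, hcW, hcI, hoz, hρz, hcos⟩ :=
    hT55 p k F L f q t X G₀ ρ P S₂ S₃ h z η I W M hp hp2 hcp hf hq hF hC3 ht hUni hS₂ hS₃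
      (hXne 0) hS₂0 hh hh0 hz hoh hGe1 hI hW hM
  have hfixh : ∀ g ∈ W, ρ g h = h := by
    intro g hg
    have hu := hWu g hg
    have h1 : ρ g S₂ = S₂ := by
      rw [hS₂]
      exact fix_S2 hp hcp hq hF (ρ g) X g.1.1 (hC3.act g) (hu.2 0) (hu.1 1 0 (by decide))
        (hu.1 2 0 (by decide)) (hu.2 1) (hu.1 2 1 (by decide))
    have h2 : ρ g t = t :=
      (hC3.cov.fixed t).2 (IntermediateField.mem_adjoin_simple_self k t) g
    rw [hh, map_div₀, map_mul, h1, h2, AlgEquiv.commutes]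
  obtain ⟨hcM, hsurj, l, hlst, hU⟩ :=
    hT56 p k F L f q t X G₀ ρ P S₂ S₃ h z α W M τ hp hp2 hcp hf hq hF hC3 ht hUni hS₂ hS₃
      (hXne 0) hS₂0 hh0 hα hz hoh hGe1 hGe2 hW hM hτ1 hpτ hoz hρz hfixh
  have hMW : M ≤ W := fun g hg => ((hM g).1 hg).1
  have hnor : ∀ g ∈ W, ∀ m ∈ M, g * m * g⁻¹ ∈ M := by
    intro g hg m hm
    obtain ⟨hm1, hm2⟩ := (hM m).1 hm
    refine (hM _).2 ⟨W.mul_mem (W.mul_mem hg hm1) (W.inv_mem hg), ?_⟩
    rw [hmul _ (W.mul_mem hg hm1) _ (W.inv_mem hg), hmul g hg m hm1, hinv g hg, hm2]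
    ring
  obtain ⟨e, he⟩ : ∃ e : ℕ, q ^ 3 = e + q + 3 := by
    refine ⟨q ^ 3 - q - 3, ?_⟩
    have h1 : 3 * 3 * q ≤ q * q * q := Nat.mul_le_mul_right q (Nat.mul_le_mul hq3 hq3)
    have h2 : q ^ 3 = q * q * q := by ring
    omega
  have he' : q ^ 3 - q - 3 = e := by omega
  rw [he'] at hU
  have hcond := hLC1 p k L G₀ P ρ I W M ((q * e + 2) * τ) τ l hp hcp hC3.cov.inj hI hW hMW hnor
    hcos (by
      have h1 : 2 * τ ≤ (q * e + 2) * τ := Nat.mul_le_mul_right τ (by omega)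
      omega) hlst hU
  -- the value of the conductor
  have hval : ((Nat.card M : ℚ) * ((q * e + 2) * τ : ℕ) + ((Nat.card W : ℚ) - Nat.card M) * τ) /
      Nat.card I = ((q : ℚ) ^ 4 - q ^ 2 - 2 * q + 1) / ((q : ℚ) * (q - 1)) := by
    have heq : (e : ℚ) = (q : ℚ) ^ 3 - q - 3 := by
      have h1 : ((q ^ 3 : ℕ) : ℚ) = ((e + q + 3 : ℕ) : ℚ) := by rw [he]
      push_cast at h1
      linarith
    have hq1 : ((q - 1 : ℕ) : ℚ) = (q : ℚ) - 1 := by
      rw [Nat.cast_sub (by omega), Nat.cast_one]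
    have hq0 : (q : ℚ) ≠ 0 := Nat.cast_ne_zero.2 (by omega)
    have hq10 : (q : ℚ) - 1 ≠ 0 := by
      rw [← hq1]
      exact Nat.cast_ne_zero.2 (by omega)
    have hτ0 : (τ : ℚ) ≠ 0 := Nat.cast_ne_zero.2 (by omega)
    rw [hcI, hcW, hcM]
    push_cast
    rw [hq1, heq]
    field_simp
    ring
  rw [hval] at hcond
  -- the group is all of `SL_3(F)`
  have htr : ∀ g : Matrix.SpecialLinearGroup (Fin 3) F,
      (∀ i j, i ≠ 0 → g.1 i j = if i = j then 1 else 0) → g.1 0 0 = 1 → g ∈ G₀ := by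
    intro g hg h00
    obtain ⟨g', hg', h01, h02⟩ := hsurj ![g.1 0 1, g.1 0 2]
    obtain ⟨hgW, hg12⟩ := (hM g').1 hg'
    have hu := hWu g' hgW
    have g10 : g.1 1 0 = 0 := by
      have h1 := hg 1 0 (by decide)
      rwa [if_neg (by decide)] at h1
    have g11 : g.1 1 1 = 1 := by
      have h1 := hg 1 1 (by decide)
      rwa [if_pos rfl] at h1
    have g12 : g.1 1 2 = 0 := by
      have h1 := hg 1 2 (by decide)
      rwa [if_neg (by decide)] at h1
    have g20 : g.1 2 0 = 0 := by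
      have h1 := hg 2 0 (by decide)
      rwa [if_neg (by decide)] at h1
    have g21 : g.1 2 1 = 0 := by
      have h1 := hg 2 1 (by decide)
      rwa [if_neg (by decide)] at h1
    have g22 : g.1 2 2 = 1 := by
      have h1 := hg 2 2 (by decide)
      rwa [if_pos rfl] at h1
    have heq : g'.1.1 = g.1 := by
      ext i j
      fin_cases i <;> fin_cases j
      · exact (hu.2 0).trans h00.symm
      · exact h01
      · exact h02
      · exact (hu.1 1 0 (by decide)).trans g10.symm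
      · exact (hu.2 1).trans g11.symm
      · exact hg12.trans g12.symm
      · exact (hu.1 2 0 (by decide)).trans g20.symm
      · exact (hu.1 2 1 (by decide)).trans g21.symm
      · exact (hu.2 2).trans g22.symm
    have heq' : g'.1 = g := Subtype.ext heq
    rw [← heq']
    exact g'.2
  have hirr := hT33 p k F L f q _ _ t X G₀ ρ hp hcp hf hq hF hS3 hC3
    (fun α β hα => pol1 q (q ^ 2 - 2) (sq_big q hq3) (by have := sq_big q hq3; omega) _ α β (by
      rw [coeff_neg, coeff_X_pow, if_pos rfl]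
      exact neg_ne_zero.2 one_ne_zero) hα)
    (fun α β hα => pol1 q ((q ^ 2 - 2) * q) (sq_big2 q hq3)
      (by have := sq_big2 q hq3; omega) _ α β (by
        rw [neg_pow, ← pow_mul, ← C_1, ← C_neg, ← C_pow, coeff_C_mul, coeff_X_pow, if_pos rfl,
          mul_one]
        exact pow_ne_zero _ (neg_ne_zero.2 one_ne_zero)) hα)
  have htop : G₀ = ⊤ := hT34 F G₀ hirr htr
  have hex : ((q : ℚ) ^ 4 - q ^ 2 - 2 * q + 1) / ((q : ℚ) * (q - 1)) ∈ Cond k G₀ :=
    ⟨L, _, _, ρ, t, hC3.cov, P, ht, hcond⟩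
  clear hcond hU hlst hsurj hfixh hρz hcos hM hnor hMW hinv hone hmul hWu hWm
  subst htop
  exact cond_mono k _ _ Subgroup.topEquiv hex

end Pool.CND
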